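import Mathlib
import Pool.Agent.H933R3.Defs

set_option autoImplicit false

/-!
# Cones are non-evasive
-/

namespace Pool.Agent.Q13.LC

open Finset Pool.Agent.H933R3

variable {V : Type} [DecidableEq V]

/-- every cone is non-evasive -/
theorem nonEvasive_cone (v : V) : ∀ (n : ℕ) (K : Finset (Finset V)), K.card ≤ n → IsCx K →
    (∀ σ ∈ K, insert v σ ∈ K) → NonEvasive K := by
  intro n
  induction n with
  | zero =>
    intro K hn hK _
    have : K = ∅ := card_eq_zero.1 (Nat.le_zero.1 hn)
    exact absurd hK.1 (by rw [this]; simp)
  | succ n ih =>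
    intro K hn hK hc
    have hv : ({v} : Finset V) ∈ K := hc ∅ hK.1
    by_cases h : ∃ w, w ≠ v ∧ ({w} : Finset V) ∈ K
    · obtain ⟨w, hwv, hw⟩ := h
      have c1 : (del K w).card < K.card := by
        apply card_lt_card
        refine ⟨filter_subset _ _, fun h => ?_⟩
        have := h hw
        rw [del, mem_filter] at this
        exact this.2 (mem_singleton_self _)
      have c2 : (link K w).card < K.card := by
        apply card_lt_card
        refine ⟨filter_subset _ _, fun h => ?_⟩
        have := h hw
        rw [link, mem_filter] at this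
        exact this.2.1 (mem_singleton_self _)
      have hnot : ∀ σ : Finset V, w ∉ σ → w ∉ insert v σ := by
        intro σ hσ h
        rcases mem_insert.1 h with h | h
        · exact hwv h
        · exact hσ h
      refine NonEvasive.step K w hw (ih _ (by omega) ?_ ?_) (ih _ (by omega) ?_ ?_)
      · refine ⟨?_, ?_⟩
        · rw [del, mem_filter]; exact ⟨hK.1, by simp⟩
        · intro σ hσ τ hτ
          rw [del, mem_filter] at hσ ⊢
          exact ⟨hK.2 σ hσ.1 τ hτ, fun h => hσ.2 (hτ h)⟩
      · intro σ hσ
        rw [del, mem_filter] at hσ ⊢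
        exact ⟨hc σ hσ.1, hnot σ hσ.2⟩
      · refine ⟨?_, ?_⟩
        · rw [link, mem_filter]
          exact ⟨hK.1, by simp, by simpa using hw⟩
        · intro σ hσ τ hτ
          rw [link, mem_filter] at hσ ⊢
          exact ⟨hK.2 σ hσ.1 τ hτ, fun h => hσ.2.1 (hτ h),
            hK.2 _ hσ.2.2 _ (insert_subset_insert _ hτ)⟩
      · intro σ hσ
        rw [link, mem_filter] at hσ ⊢
        refine ⟨hc σ hσ.1, hnot σ hσ.2.1, ?_⟩
        rw [insert_comm]
        exact hc _ hσ.2.2
    · push Not at h
      have e : K = {∅, {v}} := by
        ext σ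
        rw [mem_insert, mem_singleton]
        constructor
        · intro hσ
          rw [← subset_singleton_iff]
          intro x hx
          rw [mem_singleton]
          by_contra hne
          exact h x hne (hK.2 σ hσ _ (singleton_subset_iff.2 hx))
        · rintro (rfl | rfl)
          · exact hK.1
          · exact hv
      rw [e]
      exact NonEvasive.point v

end Pool.Agent.Q13.LC
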