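import Mathlib
import Pool.Agent.H933R3.Susp

set_option autoImplicit false

/-!
# A cone over a 3-ball with a knotted spanning edge

`Cm` lists the bit masks of the 36 facets of a 4-dimensional complex on `Fin 13`: the cone with
apex `10` over a 3-ball.  We show that its realization is a 4-ball, by an explicit chain of
stellar moves.
-/

namespace Pool.Agent.Q13.LC

open Finset Pool.Agent.H933R3 Pool.Agent.Helper175.NS

/-- the bit masks of the 36 facets -/
def Cm : List ℕ := [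
  1047, 1099, 1555, 1603, 3085, 5141, 7173, 1353, 3337, 5169, 3233, 7201, 3457, 1302, 5194,
  3346, 3602, 3266, 5314, 3650, 3458, 3116, 5396, 5412, 7204, 3224, 5272, 3352, 5400, 3240,
  5448, 5232, 3280, 5328, 5472, 1039]

/-- the moves -/
def mvs : List (ℕ × ℕ) := [
  (6144, 37), (4097, 52), (4128, 68), (4100, 336), (144, 6144), (4352, 88), (68, 304),
  (260, 34), (2080, 132), (20, 35), (2052, 137), (2049, 392), (2056, 4352), (6144, 144),
  (4352, 152), (512, 2049), (35, 20), (2304, 146), (24, 4352), (4480, 24), (20, 35),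
  (67, 2056), (24, 4480), (2176, 82), (4112, 448), (132, 41), (4352, 200), (4, 42), (144, 322),
  (264, 193), (272, 98), (130, 4352), (96, 272), (2050, 24), (3, 56), (33, 144), (17, 2176),
  (4160, 130), (4096, 264), (2048, 17), (72, 3), (9, 146), (24, 162), (3, 208), (66, 400),
  (64, 273), (130, 24), (2, 296), (24, 416), (32, 24), (144, 9), (1, 144)]

/-- replace the star of `ρ` by the star of `ρ'` -/
def applyG (l : List ℕ) (ρ ρ' : ℕ) : List ℕ :=
  l.filter (fun m => !(decide (m &&& ρ = ρ))) ++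
    (l.filter (fun m => decide (m &&& ρ = ρ) && !(m.testBit (Nat.log2 ρ')))).flatMap
      (fun m => (bits ρ).map (fun z => (m ^^^ 2 ^ z) ||| ρ'))

def okG (l l' : List ℕ) (ρ ρ' : ℕ) : Bool :=
  sameB (starB l ρ 13) (starB l' ρ' 13) && l'.all (fun m => decide (m < 8192)) &&
    decide (ρ < 8192) && decide (ρ' < 8192) && !((bits ρ).isEmpty) && !((bits ρ').isEmpty)

def chainG : List ℕ → List (ℕ × ℕ) → List ℕ → Bool
  | l, [], t => sameB l t
  | l, r :: ms, t => okG l (applyG l r.1 r.2) r.1 r.2 && chainG (applyG l r.1 r.2) ms t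

set_option maxRecDepth 100000 in
theorem chain_okG : chainG Cm mvs [1432] = true := by decide +kernel

theorem dec_nonempty {ρ : ℕ} (h : (bits ρ).isEmpty = false) : (dec ρ).Nonempty := by
  cases hb : bits ρ with
  | nil => rw [hb] at h; exact absurd h (by decide)
  | cons a l => exact ⟨a, mem_bits.1 (hb ▸ List.mem_cons_self)⟩

theorem chainG_homeo (ms : List (ℕ × ℕ)) :
    ∀ (l t : List ℕ), (∀ m ∈ l, m < 8192) → chainG l ms t = true →
      Nonempty (Sp (decL t) ≃ₜ Sp (decL l)) := by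
  induction ms with
  | nil =>
    intro l t _ h
    rw [chainG] at h
    rw [decL_of_sameB h]
    exact ⟨Homeomorph.refl _⟩
  | cons r ms ih =>
    intro l t hl h
    rw [chainG, Bool.and_eq_true] at h
    obtain ⟨h1, h2⟩ := h
    simp only [okG, Bool.and_eq_true, decide_eq_true_eq, List.all_eq_true,
      Bool.not_eq_true'] at h1
    obtain ⟨⟨⟨⟨⟨h3, h4⟩, h5⟩, h6⟩, h7⟩, h8⟩ := h1
    obtain ⟨e1⟩ := ih (applyG l r.1 r.2) t h4 h2
    have h13 : ∀ l' : List ℕ, (∀ m ∈ l', m < 8192) → ∀ β ∈ decL l', 13 ∉ β := by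
      intro l' hl' β hβ hmem
      obtain ⟨m, hm, rfl⟩ := mem_decL.1 hβ
      have := dec_lt (hl' m hm) 13 hmem
      omega
    have h13' : ∀ m : ℕ, m < 8192 → 13 ∉ dec m := fun m hm h => by
      have := dec_lt hm 13 h
      omega
    have heq : star (decL l) (dec r.1) 13 = star (decL (applyG l r.1 r.2)) (dec r.2) 13 := by
      rw [← decL_starB l r.1 h5, ← decL_starB _ r.2 h6]
      exact decL_of_sameB h3
    obtain ⟨e2⟩ := star_homeo (decL l) (dec r.1) 13 (dec_nonempty h7) (h13 l hl) (h13' _ h5)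
    obtain ⟨e3⟩ := star_homeo (decL (applyG l r.1 r.2)) (dec r.2) 13 (dec_nonempty h8)
      (h13 _ h4) (h13' _ h6)
    rw [heq] at e2
    exact ⟨e1.trans (e3.symm.trans e2)⟩

theorem Cm_small : ∀ m ∈ Cm, m < 8192 := by decide

/-- the set of facets -/
def Gs : Finset (Finset (Fin 13)) := (Cm.map (decF 13)).toFinset

theorem mem_Gs {F : Finset (Fin 13)} : F ∈ Gs ↔ ∃ m ∈ Cm, decF 13 m = F := by
  rw [Gs, List.mem_toFinset, List.mem_map]

theorem image_val {m : ℕ} (hm : m < 8192) : (decF 13 m).image Fin.val = dec m := by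
  ext k
  rw [mem_image]
  constructor
  · rintro ⟨i, hi, rfl⟩
    rw [mem_decF] at hi
    rw [mem_dec]
    exact ⟨by omega, hi⟩
  · intro hk
    have h2 := dec_lt hm _ hk
    refine ⟨⟨k, h2⟩, ?_, rfl⟩
    rw [mem_decF]
    rw [mem_dec] at hk
    exact hk.2

theorem Gs_image : Gs.image (fun F => F.image Fin.val) = decL Cm := by
  ext A
  rw [mem_image, mem_decL]
  constructor
  · rintro ⟨F, hF, rfl⟩
    obtain ⟨m, hm, rfl⟩ := mem_Gs.1 hF
    exact ⟨m, hm, (image_val (Cm_small m hm)).symm⟩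
  · rintro ⟨m, hm, rfl⟩
    exact ⟨decF 13 m, mem_Gs.2 ⟨m, hm, rfl⟩, image_val (Cm_small m hm)⟩

theorem Gs_ball : Nonempty (Sp Gs ≃ₜ Metric.closedBall (0 : EuclideanSpace ℝ (Fin 4)) 1) := by
  obtain ⟨e1⟩ := relabel_homeo Gs (Fin.val : Fin 13 → ℕ) univ (fun F _ => subset_univ F)
    (Fin.val_injective.injOn)
  rw [Gs_image] at e1
  obtain ⟨e2⟩ := chainG_homeo mvs Cm [1432] Cm_small chain_okG
  have h1 : decL [1432] = {dec 1432} := rfl
  rw [h1] at e2
  obtain ⟨e4⟩ := simplex_ball (dec 1432) 4 (by decide)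
  exact ⟨(e1.symm.trans e2.symm).trans e4⟩

theorem realization_eq_C : realization (cx 13 Cm) = Sp Gs := by
  ext x
  constructor
  · rintro ⟨h0, h1, σ, hσ, h2⟩
    obtain ⟨m, hm, h3⟩ := mem_cx.1 hσ
    refine ⟨h0, decF 13 m, mem_Gs.2 ⟨m, hm, rfl⟩, fun i hi => h2 i (fun h => hi (h3 h)), ?_⟩
    rw [← h1]
    exact sum_subset (subset_univ _) (fun i _ hi => h2 i (fun h => hi (h3 h)))
  · rintro ⟨h0, F, hF, h1, h2⟩
    obtain ⟨m, hm, rfl⟩ := mem_Gs.1 hF
    refine ⟨h0, ?_, decF 13 m, mem_cx.2 ⟨m, hm, Subset.refl _⟩, h1⟩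
    rw [← h2]
    exact (sum_subset (subset_univ _) (fun i _ hi => h1 i hi)).symm

/-- the complex is a triangulated 4-ball -/
theorem isBall_C : IsBall 4 (cx 13 Cm) := by
  unfold IsBall
  rw [realization_eq_C]
  exact Gs_ball

end Pool.Agent.Q13.LC
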