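import Mathlib
import Pool.Agent.H933R3.Defs

set_option autoImplicit false

/-!
# An obstruction to local constructibility

`K` is a `d`-dimensional complex, `T` a `(d-2)`-face contained in exactly three facets, and
`ps` a flat family of transition elements of a group along the edges avoiding `T`.  If `K` is
locally constructible then all monodromies around closed edge loops avoiding `T` commute.
-/

namespace Pool.Agent.Q13.LC

open Finset Pool.Agent.H933R3

variable {V : Type} [DecidableEq V]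

/-- basic facts on the stages of a local construction -/
theorem stage_facts {d : ℕ} {K : Finset (Finset V)} {𝓕 G : Finset (Finset V)}
    (h : LCStage d K 𝓕 G) :
    (∀ X ∈ 𝓕, IsFacet K X) ∧
      ∀ R ∈ G, R.card = d ∧ ∃ X ∈ 𝓕, ∃ Y ∈ 𝓕, X ≠ Y ∧ R ⊆ X ∧ R ⊆ Y := by
  induction h with
  | start F hF =>
    refine ⟨?_, ?_⟩
    · intro X hX
      rw [mem_singleton] at hX
      rw [hX]; exact hF
    · intro R hR
      simp at hR
  | attach 𝓕 G F F' R h hF hF' hn hR h1 h2 hG ih =>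
    obtain ⟨i1, i2⟩ := ih
    refine ⟨?_, ?_⟩
    · intro X hX
      rcases mem_insert.1 hX with rfl | hX
      · exact hF'
      · exact i1 X hX
    · intro R' hR'
      rcases mem_insert.1 hR' with rfl | hR'
      · exact ⟨hR, F, mem_insert_of_mem hF, F', mem_insert_self _ _,
          fun e => hn (e ▸ hF), h1, h2⟩
      · obtain ⟨j1, X, hX, Y, hY, j2⟩ := i2 R' hR'
        exact ⟨j1, X, mem_insert_of_mem hX, Y, mem_insert_of_mem hY, j2⟩
  | glue 𝓕 G F F' R A h hF hF' hne hR h1 h2 hG hA hAR hs ih =>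
    obtain ⟨i1, i2⟩ := ih
    refine ⟨i1, ?_⟩
    intro R' hR'
    rcases mem_insert.1 hR' with rfl | hR'
    · exact ⟨hR, F, hF, F', hF', hne, h1, h2⟩
    · exact i2 R' hR'

theorem sameFace_symm {𝓕 G : Finset (Finset V)} {A F F' : Finset V}
    (h : SameFace 𝓕 G A F F') : SameFace 𝓕 G A F' F := by
  unfold SameFace at h ⊢
  induction h with
  | refl => exact Relation.ReflTransGen.refl
  | tail _ h ih =>
    obtain ⟨h1, h2, R, h3, h4, h5, h6⟩ := h
    exact Relation.ReflTransGen.head ⟨h2, h1, R, h3, h4, h6, h5⟩ ih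

theorem sameFace_exit {𝓕 G : Finset (Finset V)} {A F F' : Finset V}
    (h : SameFace 𝓕 G A F F') (hne : F ≠ F') :
    ∃ R ∈ G, A ⊆ R ∧ R ⊆ F ∧ ∃ W ∈ 𝓕, W ≠ F ∧ R ⊆ W := by
  unfold SameFace at h
  induction h using Relation.ReflTransGen.head_induction_on with
  | refl => exact absurd rfl hne
  | @head X Y h _ ih =>
    obtain ⟨h1, h2, R, h3, h4, h5, h6⟩ := h
    by_cases e : Y = X
    · subst e
      exact ih hne
    · exact ⟨R, h3, h4, h5, Y, h2, e, h6⟩

/-- a ridge in two distinct facets is their intersection -/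
theorem ridge_eq {d : ℕ} {R X Y : Finset V} (hR : R.card = d) (hX : X.card = d + 1)
    (hY : Y.card = d + 1) (hne : X ≠ Y) (h1 : R ⊆ X) (h2 : R ⊆ Y) : R = X ∩ Y := by
  apply eq_of_subset_of_card_le (subset_inter h1 h2)
  rw [hR]
  by_contra hc
  push Not at hc
  have h3 : X ∩ Y = X := eq_of_subset_of_card_le inter_subset_left (by omega)
  have h4 : X ∩ Y = Y := eq_of_subset_of_card_le inter_subset_right (by omega)
  exact hne (h3.symm.trans h4)

/-- In the link of a `(d-2)`-face lying in three facets, the last gluing is special. -/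
theorem path3 {d : ℕ} {K : Finset (Finset V)} {𝓕 G : Finset (Finset V)} {T : Finset V}
    (hfc : ∀ F, IsFacet K F → F.card = d + 1) (hf : ∀ X ∈ 𝓕, IsFacet K X)
    (hg : ∀ R ∈ G, R.card = d)
    {E1 E2 E3 : Finset V} (h3 : ∀ F, IsFacet K F → T ⊆ F → F = E1 ∨ F = E2 ∨ F = E3)
    {F F' R : Finset V} (hF : F ∈ 𝓕) (hF' : F' ∈ 𝓕) (hne : F ≠ F') (hR : R.card = d)
    (h1 : R ⊆ F) (h2 : R ⊆ F') (hG : R ∉ G) (hTR : T ⊆ R) (hs : SameFace 𝓕 G T F F')
    {S Y Z : Finset V} (hS : S.card = d) (hTS : T ⊆ S) (hY : IsFacet K Y) (hZ : IsFacet K Z)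
    (hYZ : Y ≠ Z) (h4 : S ⊆ Y) (h5 : S ⊆ Z) (hSR : S ≠ R) : S ∈ G := by
  obtain ⟨R1, hR1, a1, a2, W, hW, a3, a4⟩ := sameFace_exit hs hne
  obtain ⟨R2, hR2, b1, b2, W', hW', b3, b4⟩ := sameFace_exit (sameFace_symm hs) hne.symm
  have eR := ridge_eq hR (hfc _ (hf _ hF)) (hfc _ (hf _ hF')) hne h1 h2
  have eS := ridge_eq hS (hfc _ hY) (hfc _ hZ) hYZ h4 h5
  have e1 := ridge_eq (hg _ hR1) (hfc _ (hf _ hF)) (hfc _ (hf _ hW)) a3.symm a2 a4
  have e2 := ridge_eq (hg _ hR2) (hfc _ (hf _ hF')) (hfc _ (hf _ hW')) b3.symm b2 b4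
  have w1 : W ≠ F' := by
    rintro rfl
    exact hG (eR ▸ e1 ▸ hR1)
  have w2 : W' ≠ F := by
    rintro rfl
    rw [inter_comm] at e2
    exact hG (eR ▸ e2 ▸ hR2)
  have c1 := h3 F (hf _ hF) (hTR.trans h1)
  have c2 := h3 F' (hf _ hF') (hTR.trans h2)
  have c3 := h3 W (hf _ hW) (a1.trans a4)
  have c4 := h3 W' (hf _ hW') (b1.trans b4)
  have c5 := h3 Y hY (hTS.trans h4)
  have c6 := h3 Z hZ (hTS.trans h5)
  have hWW : W' = W := by
    rcases c1 with c1 | c1 | c1 <;> rcases c2 with c2 | c2 | c2 <;>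
      rcases c3 with c3 | c3 | c3 <;> rcases c4 with c4 | c4 | c4 <;> subst_vars <;> simp_all
  subst hWW
  have k : ∀ Q : Finset V, Q = E1 ∨ Q = E2 ∨ Q = E3 → Q = F ∨ Q = F' ∨ Q = W' := by
    intro Q hQ
    rcases c1 with c1 | c1 | c1 <;> rcases c2 with c2 | c2 | c2 <;>
      rcases c3 with c3 | c3 | c3 <;> rcases hQ with hQ | hQ | hQ <;> subst_vars <;> simp_all
  rcases k Y c5 with y | y | y <;> rcases k Z c6 with z | z | z
  · exact absurd (y.trans z.symm) hYZ
  · exact absurd (by rw [eS, eR, y, z]) hSR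
  · rw [eS, y, z, ← e1]; exact hR1
  · exact absurd (by rw [eS, eR, y, z, inter_comm]) hSR
  · exact absurd (y.trans z.symm) hYZ
  · rw [eS, y, z, ← e2]; exact hR2
  · rw [eS, y, z, inter_comm, ← e1]; exact hR1
  · rw [eS, y, z, inter_comm, ← e2]; exact hR2
  · exact absurd (y.trans z.symm) hYZ

/-- the invariant of a stage of a local construction -/
def Inv {Γ : Type} [Group Γ] (d : ℕ) (K : Finset (Finset V)) (T : Finset V) (ps : V → V → Γ)
    (𝓕 G : Finset (Finset V)) : Prop :=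
  ∃ (φ : Finset V → V → Γ) (C : Subgroup Γ),
    (∀ F ∈ 𝓕, ∀ u ∈ F, u ∉ T → ∀ v ∈ F, v ∉ T → φ F v = φ F u * ps u v) ∧
    (∀ R ∈ G, ∀ F ∈ 𝓕, ∀ F' ∈ 𝓕, R ⊆ F → R ⊆ F' → ∀ r ∈ R, r ∉ T →
      φ F r * (φ F' r)⁻¹ ∈ C) ∧
    (C = ⊥ ∨ ((∃ g, C = Subgroup.zpowers g) ∧
      ∀ S : Finset V, S.card = d → T ⊆ S → ∀ Y Z, IsFacet K Y → IsFacet K Z → Y ≠ Z →
        S ⊆ Y → S ⊆ Z → S ∈ G))

theorem path_mem {Γ : Type} [Group Γ] {T : Finset V} {𝓕 G : Finset (Finset V)}
    {φ : Finset V → V → Γ} {C : Subgroup Γ}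
    (h : ∀ R ∈ G, ∀ F ∈ 𝓕, ∀ F' ∈ 𝓕, R ⊆ F → R ⊆ F' → ∀ r ∈ R, r ∉ T →
      φ F r * (φ F' r)⁻¹ ∈ C) {A F F' : Finset V} (hs : SameFace 𝓕 G A F F') {u : V}
    (hu : u ∈ A) (huT : u ∉ T) : φ F u * (φ F' u)⁻¹ ∈ C := by
  unfold SameFace at hs
  induction hs with
  | refl => rw [mul_inv_cancel]; exact C.one_mem
  | @tail X Y _ h' ih =>
    obtain ⟨h1, h2, R, h3, h4, h5, h6⟩ := h'
    have := C.mul_mem ih (h R h3 X h1 Y h2 h5 h6 u (h4 hu) huT)
    rw [mul_assoc, inv_mul_cancel_left] at this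
    exact this

theorem exists_diff {d : ℕ} {R T : Finset V} (hR : R.card = d) (hT : T.card + 1 = d) :
    ∃ r ∈ R, r ∉ T := by
  by_contra hc
  push Not at hc
  have := card_le_card (show R ⊆ T from hc)
  omega

theorem exists_diff' {A T : Finset V} (hA : A.card = T.card) (hne : A ≠ T) :
    ∃ u ∈ A, u ∉ T := by
  by_contra hc
  push Not at hc
  exact hne (eq_of_subset_of_card_le (show A ⊆ T from hc) hA.ge)

theorem inv_stage {Γ : Type} [Group Γ] {d : ℕ} {K : Finset (Finset V)} {T : Finset V}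
    {ps : V → V → Γ} (hT : T.card + 1 = d)
    (hfc : ∀ F, IsFacet K F → F.card = d + 1) (h2 : AtMostTwo d K)
    {E1 E2 E3 : Finset V} (h3 : ∀ F, IsFacet K F → T ⊆ F → F = E1 ∨ F = E2 ∨ F = E3)
    (hcoc : ∀ F, IsFacet K F → ∀ u ∈ F, u ∉ T → ∀ v ∈ F, v ∉ T → ∀ w ∈ F, w ∉ T →
      ps u v * ps v w = ps u w)
    {𝓕 G : Finset (Finset V)} (h : LCStage d K 𝓕 G) : Inv d K T ps 𝓕 G := by
  induction h with
  | start F hF =>
    obtain ⟨r, hr, hrT⟩ : ∃ r ∈ F, r ∉ T := by
      by_contra hc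
      push Not at hc
      have := card_le_card (show F ⊆ T from hc)
      have := hfc F hF
      omega
    refine ⟨fun _ v => ps r v, ⊥, ?_, ?_, Or.inl rfl⟩
    · intro X hX u hu huT v hv hvT
      rw [mem_singleton] at hX
      subst hX
      exact (hcoc _ hF r hr hrT u hu huT v hv hvT).symm
    · intro R hR
      simp at hR
  | attach 𝓕 G F F' R h hF hF' hn hR h1 h2' hG ih =>
    obtain ⟨φ, C, i1, i2, i3⟩ := ih
    obtain ⟨f1, f2⟩ := stage_facts h
    obtain ⟨r, hr, hrT⟩ := exists_diff hR hT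
    have hFF : F ≠ F' := fun e => hn (e ▸ hF)
    refine ⟨fun X u => if X = F' then φ F r * ps r u else φ X u, C, ?_, ?_, ?_⟩
    · intro X hX u hu huT v hv hvT
      by_cases e : X = F'
      · subst e
        simp only [if_true]
        rw [mul_assoc, hcoc _ hF' r (h2' hr) hrT u hu huT v hv hvT]
      · simp only [if_neg e]
        rcases mem_insert.1 hX with hX | hX
        · exact absurd hX e
        · exact i1 X hX u hu huT v hv hvT
    · intro R' hR' X hX Y hY hRX hRY r' hr' hr'T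
      have kF : ∀ q ∈ R, q ∉ T → φ F q = φ F r * ps r q := fun q hq hqT =>
        i1 F hF r (h1 hr) hrT q (h1 hq) hqT
      rcases mem_insert.1 hR' with e | hR'
      · subst e
        have k : ∀ Q ∈ insert F' 𝓕, R' ⊆ Q →
            (if Q = F' then φ F r * ps r r' else φ Q r') = φ F r * ps r r' := by
          intro Q hQ hRQ
          by_cases e : Q = F'
          · rw [if_pos e]
          · rw [if_neg e]
            have hQ' : Q ∈ 𝓕 := (mem_insert.1 hQ).resolve_left e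
            rcases h2 R' hR F F' Q (f1 F hF) hF' (f1 Q hQ') h1 h2' hRQ with e' | e' | e'
            · exact absurd e' hFF
            · rw [← e']; exact kF r' hr' hr'T
            · exact absurd e'.symm e
        simp only
        rw [k X hX hRX, k Y hY hRY, mul_inv_cancel]
        exact C.one_mem
      · obtain ⟨g1, P, hP, Q, hQ, g2, g3, g4⟩ := f2 R' hR'
        have k : ¬ R' ⊆ F' := by
          intro hc
          rcases h2 R' g1 P Q F' (f1 P hP) (f1 Q hQ) hF' g3 g4 hc with e | e | e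
          · exact g2 e
          · exact hn (e ▸ hP)
          · exact hn (e ▸ hQ)
        have eX : X ≠ F' := fun e => k (e ▸ hRX)
        have eY : Y ≠ F' := fun e => k (e ▸ hRY)
        simp only [if_neg eX, if_neg eY]
        exact i2 R' hR' X ((mem_insert.1 hX).resolve_left eX) Y
          ((mem_insert.1 hY).resolve_left eY) hRX hRY r' hr' hr'T
    · rcases i3 with i3 | ⟨i3, i4⟩
      · exact Or.inl i3
      · exact Or.inr ⟨i3, fun S hS hTS Y Z hY hZ hYZ g1 g2 =>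
          mem_insert_of_mem (i4 S hS hTS Y Z hY hZ hYZ g1 g2)⟩
  | glue 𝓕 G F F' R A h hF hF' hne hR h1 h2' hG hA hAR hs ih =>
    obtain ⟨φ, C, i1, i2, i3⟩ := ih
    obtain ⟨f1, f2⟩ := stage_facts h
    -- it suffices to treat `F`, `F'`
    have key : ∀ (D : Subgroup Γ), (∀ r ∈ R, r ∉ T → φ F r * (φ F' r)⁻¹ ∈ D) →
        ∀ X ∈ 𝓕, ∀ Y ∈ 𝓕, R ⊆ X → R ⊆ Y → ∀ r ∈ R, r ∉ T → φ X r * (φ Y r)⁻¹ ∈ D := by
      intro D hD X hX Y hY hRX hRY r hr hrT
      have k : ∀ Q ∈ 𝓕, R ⊆ Q → Q = F ∨ Q = F' := by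
        intro Q hQ hRQ
        rcases h2 R hR F F' Q (f1 F hF) (f1 F' hF') (f1 Q hQ) h1 h2' hRQ with e | e | e
        · exact absurd e hne
        · exact Or.inl e.symm
        · exact Or.inr e.symm
      have hD' := D.inv_mem (hD r hr hrT)
      rw [mul_inv_rev, inv_inv] at hD'
      rcases k X hX hRX with rfl | rfl <;> rcases k Y hY hRY with rfl | rfl
      · rw [mul_inv_cancel]; exact D.one_mem
      · exact hD r hr hrT
      · exact hD'
      · rw [mul_inv_cancel]; exact D.one_mem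
    have move : ∀ u v, u ∈ F → u ∈ F' → u ∉ T → v ∈ F → v ∈ F' → v ∉ T →
        φ F v * (φ F' v)⁻¹ = φ F u * (φ F' u)⁻¹ := by
      intro u v a1 a2 a3 b1 b2 b3
      rw [i1 F hF u a1 a3 v b1 b3, i1 F' hF' u a2 a3 v b2 b3, mul_inv_rev, mul_assoc,
        mul_inv_cancel_left]
    by_cases hAT : A = T
    · subst hAT
      have hall : ∀ S : Finset V, S.card = d → A ⊆ S → ∀ Y Z, IsFacet K Y → IsFacet K Z →
          Y ≠ Z → S ⊆ Y → S ⊆ Z → S ∈ insert R G := by
        intro S hS hTS Y Z hY hZ hYZ g1 g2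
        by_cases e : S = R
        · rw [e]; exact mem_insert_self _ _
        · exact mem_insert_of_mem (path3 hfc f1 (fun R hR => (f2 R hR).1) h3 hF hF' hne hR h1
            h2' hG hAR hs hS hTS hY hZ hYZ g1 g2 e)
      have hC : C = ⊥ := by
        rcases i3 with i3 | ⟨i3, i4⟩
        · exact i3
        · exact absurd (i4 R hR hAR F F' (f1 F hF) (f1 F' hF') hne h1 h2') hG
      subst hC
      obtain ⟨r, hr, hrT⟩ := exists_diff hR hT
      refine ⟨φ, Subgroup.zpowers (φ F r * (φ F' r)⁻¹), i1, ?_, Or.inr ⟨⟨_, rfl⟩, hall⟩⟩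
      intro R' hR' X hX Y hY hRX hRY r' hr' hr'T
      rcases mem_insert.1 hR' with e | hR'
      · subst e
        refine key _ ?_ X hX Y hY hRX hRY r' hr' hr'T
        intro q hq hqT
        rw [move r q (h1 hr) (h2' hr) hrT (h1 hq) (h2' hq) hqT]
        exact Subgroup.mem_zpowers _
      · have := i2 R' hR' X hX Y hY hRX hRY r' hr' hr'T
        rw [Subgroup.mem_bot] at this
        rw [this]
        exact Subgroup.one_mem _
    · obtain ⟨u, huA, huT⟩ := exists_diff' (by omega) hAT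
      have hu := path_mem i2 hs huA huT
      refine ⟨φ, C, i1, ?_, ?_⟩
      · intro R' hR' X hX Y hY hRX hRY r' hr' hr'T
        rcases mem_insert.1 hR' with e | hR'
        · subst e
          refine key _ ?_ X hX Y hY hRX hRY r' hr' hr'T
          intro q hq hqT
          rw [move u q (h1 (hAR huA)) (h2' (hAR huA)) huT (h1 hq) (h2' hq) hqT]
          exact hu
        · exact i2 R' hR' X hX Y hY hRX hRY r' hr' hr'T
      · rcases i3 with i3 | ⟨i3, i4⟩
        · exact Or.inl i3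
        · exact Or.inr ⟨i3, fun S hS hTS Y Z hY hZ hYZ g1 g2 =>
            mem_insert_of_mem (i4 S hS hTS Y Z hY hZ hYZ g1 g2)⟩

/-- The obstruction: in a locally constructible complex the monodromies lie, up to a choice of
base values, in a commutative subgroup. -/
theorem obstruction {Γ : Type} [Group Γ] {d : ℕ} {K : Finset (Finset V)} {T : Finset V}
    {ps : V → V → Γ} (hK : IsCx K) (hT : T.card + 1 = d)
    {E1 E2 E3 : Finset V} (h3 : ∀ F, IsFacet K F → T ⊆ F → F = E1 ∨ F = E2 ∨ F = E3)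
    (hcoc : ∀ F, IsFacet K F → ∀ u ∈ F, u ∉ T → ∀ v ∈ F, v ∉ T → ∀ w ∈ F, w ∉ T →
      ps u v * ps v w = ps u w)
    (h : IsLC d K) : ∃ (ψ : V → Γ) (C : Subgroup Γ), (∀ a ∈ C, ∀ b ∈ C, a * b = b * a) ∧
      ∀ F, IsFacet K F → ∀ u ∈ F, u ∉ T → ∀ v ∈ F, v ∉ T → ψ u * ps u v * (ψ v)⁻¹ ∈ C := by
  obtain ⟨hfc, h2, 𝓕, G, hst, hcov, hend⟩ := h
  obtain ⟨φ, C, i1, i2, i3⟩ := inv_stage (ps := ps) hT hfc h2 h3 hcoc hst
  classical
  let fc : V → Finset V := fun u => if h : ∃ F, IsFacet K F ∧ u ∈ F then h.choose else ∅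
  have hfcs : ∀ F, IsFacet K F → ∀ u ∈ F, IsFacet K (fc u) ∧ u ∈ fc u := by
    intro F hF u hu
    have he : ∃ F, IsFacet K F ∧ u ∈ F := ⟨F, hF, hu⟩
    have : fc u = he.choose := dif_pos he
    rw [this]
    exact he.choose_spec
  refine ⟨fun u => φ (fc u) u, C, ?_, ?_⟩
  · intro a ha b hb
    rcases i3 with rfl | ⟨⟨g, rfl⟩, -⟩
    · rw [Subgroup.mem_bot] at ha hb
      rw [ha, hb]
    · obtain ⟨m, rfl⟩ := Subgroup.mem_zpowers_iff.1 ha
      obtain ⟨n, rfl⟩ := Subgroup.mem_zpowers_iff.1 hb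
      exact (Commute.refl g).zpow_zpow m n
  · intro F hF u hu huT v hv hvT
    have hsame : ∀ F, IsFacet K F → ∀ u ∈ F, u ∉ T → ∀ F', IsFacet K F' → u ∈ F' →
        φ F u * (φ F' u)⁻¹ ∈ C := by
      intro F hF u hu huT F' hF' hu'
      refine path_mem i2 (hend {u} ?_ F (hcov F hF) F' (hcov F' hF') ?_ ?_)
        (mem_singleton_self u) huT
      · exact hK.2 F hF.1 _ (singleton_subset_iff.2 hu)
      · exact singleton_subset_iff.2 hu
      · exact singleton_subset_iff.2 hu'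
    obtain ⟨a1, a2⟩ := hfcs F hF u hu
    obtain ⟨b1, b2⟩ := hfcs F hF v hv
    have c1 := hsame (fc u) a1 u a2 huT F hF hu
    have c2 := hsame F hF v hv hvT (fc v) b1 b2
    have c3 := C.mul_mem c1 c2
    rw [i1 F (hcov F hF) u hu huT v hv hvT] at c3
    have e : φ (fc u) u * (φ F u)⁻¹ * (φ F u * ps u v * (φ (fc v) v)⁻¹) =
        φ (fc u) u * ps u v * (φ (fc v) v)⁻¹ := by group
    rw [e] at c3
    exact c3

end Pool.Agent.Q13.LC
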