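import Mathlib
import Pool.Agent.Q13.LC.Obs
import Pool.Agent.Q13.LC.Cx
import Pool.Agent.Q13.LC.Cone

set_option autoImplicit false

/-!
# The 4-ball `cx 13 Cm` is non-evasive and not locally constructible
-/

namespace Pool.Agent.Q13.LC

open Finset Pool.Agent.H933R3 Pool.Agent.Helper175.NS

theorem Cm_apex : ∀ m ∈ Cm, m.testBit 10 = true := by decide

theorem isCx_C : IsCx (cx 13 Cm) := isCx_cx (by decide)

theorem nonEvasive_C : NonEvasive (cx 13 Cm) := by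
  refine nonEvasive_cone (10 : Fin 13) _ _ le_rfl isCx_C ?_
  intro σ hσ
  obtain ⟨m, hm, h⟩ := mem_cx.1 hσ
  exact mem_cx.2 ⟨m, hm, insert_subset (mem_decF.2 (Cm_apex m hm)) h⟩

theorem Cm_card : ∀ m ∈ Cm, (decF 13 m).card = 5 := by decide +kernel

theorem facet_of {m : ℕ} (hm : m ∈ Cm) : IsFacet (cx 13 Cm) (decF 13 m) := by
  refine ⟨mem_cx.2 ⟨m, hm, Subset.refl _⟩, ?_⟩
  intro G hG hsub
  obtain ⟨m', hm', h⟩ := mem_cx.1 hG
  refine (eq_of_subset_of_card_le hsub ?_).symm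
  rw [Cm_card m hm, ← Cm_card m' hm']
  exact card_le_card h

theorem of_facet {F : Finset (Fin 13)} (h : IsFacet (cx 13 Cm) F) : ∃ m ∈ Cm, F = decF 13 m := by
  obtain ⟨m, hm, h1⟩ := mem_cx.1 h.1
  exact ⟨m, hm, (h.2 _ (mem_cx.2 ⟨m, hm, Subset.refl _⟩) h1).symm⟩

/-- the distinguished triangle -/
def TT : Finset (Fin 13) := {10, 11, 12}

theorem psi_perm : ∀ u v : Fin 13, ∀ c : Fin 3, psi v u (psi u v c) = c := by decide +kernel

/-- the transition permutations -/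
def ps (u v : Fin 13) : Equiv.Perm (Fin 3) where
  toFun := psi v u
  invFun := psi u v
  left_inv := psi_perm v u
  right_inv := psi_perm u v

theorem coc : ∀ m ∈ Cm, ∀ u ∈ bits m, (u = 10 ∨ u = 11 ∨ u = 12) ∨ ∀ v ∈ bits m,
    (v = 10 ∨ v = 11 ∨ v = 12) ∨ ∀ w ∈ bits m, (w = 10 ∨ w = 11 ∨ w = 12) ∨
      ∀ c : Fin 3, psi v u (psi w v c) = psi w u c := by decide +kernel

theorem mem_TT {u : Fin 13} : u ∈ TT ↔ ((u : ℕ) = 10 ∨ (u : ℕ) = 11 ∨ (u : ℕ) = 12) := by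
  revert u; decide

theorem mem_bits_of {m : ℕ} {u : Fin 13} (h : u ∈ decF 13 m) : (u : ℕ) ∈ bits m := by
  rw [mem_bits, mem_dec]
  rw [mem_decF] at h
  exact ⟨by omega, h⟩

theorem coc' (F : Finset (Fin 13)) (hF : IsFacet (cx 13 Cm) F) : ∀ u ∈ F, u ∉ TT → ∀ v ∈ F,
    v ∉ TT → ∀ w ∈ F, w ∉ TT → ps u v * ps v w = ps u w := by
  obtain ⟨m, hm, rfl⟩ := of_facet hF
  intro u hu huT v hv hvT w hw hwT
  rw [mem_TT] at huT hvT hwT
  have h := ((((coc m hm u (mem_bits_of hu)).resolve_left huT) v (mem_bits_of hv)).resolve_left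
    hvT w (mem_bits_of hw)).resolve_left hwT
  exact Equiv.ext h

theorem three : ∀ m ∈ Cm, m.testBit 11 = true → m.testBit 12 = true →
    m = 7173 ∨ m = 7201 ∨ m = 7204 := by decide

theorem three' (F : Finset (Fin 13)) (hF : IsFacet (cx 13 Cm) F) (h : TT ⊆ F) :
    F = decF 13 7173 ∨ F = decF 13 7201 ∨ F = decF 13 7204 := by
  obtain ⟨m, hm, rfl⟩ := of_facet hF
  have h1 : (11 : Fin 13) ∈ decF 13 m := h (by decide)
  have h2 : (12 : Fin 13) ∈ decF 13 m := h (by decide)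
  rw [mem_decF] at h1 h2
  rcases three m hm h1 h2 with rfl | rfl | rfl
  · exact Or.inl rfl
  · exact Or.inr (Or.inl rfl)
  · exact Or.inr (Or.inr rfl)

theorem edges : ∀ p ∈ ([(0, 1), (1, 8), (8, 0), (0, 2), (2, 5), (5, 0)] : List (ℕ × ℕ)),
    ∃ m ∈ Cm, m.testBit p.1 = true ∧ m.testBit p.2 = true := by decide +kernel

theorem not_comm : (ps 0 1 * ps 1 8 * ps 8 0) * (ps 0 2 * ps 2 5 * ps 5 0) ≠
    (ps 0 2 * ps 2 5 * ps 5 0) * (ps 0 1 * ps 1 8 * ps 8 0) := by decide +kernel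

theorem not_LC : ¬ IsLC 4 (cx 13 Cm) := by
  intro h
  obtain ⟨ψ, C, hC, key⟩ := obstruction (ps := ps) isCx_C (T := TT) (by decide) three' coc' h
  have k : ∀ u v : Fin 13, ((u : ℕ), (v : ℕ)) ∈
      ([(0, 1), (1, 8), (8, 0), (0, 2), (2, 5), (5, 0)] : List (ℕ × ℕ)) → u ∉ TT → v ∉ TT →
      ψ u * ps u v * (ψ v)⁻¹ ∈ C := by
    intro u v h hu hv
    obtain ⟨m, hm, h1, h2⟩ := edges _ h
    exact key _ (facet_of hm) u (mem_decF.2 h1) hu v (mem_decF.2 h2) hv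
  have l1 : ψ 0 * (ps 0 1 * ps 1 8 * ps 8 0) * (ψ 0)⁻¹ ∈ C := by
    have := C.mul_mem (C.mul_mem (k 0 1 (by decide) (by decide) (by decide))
      (k 1 8 (by decide) (by decide) (by decide))) (k 8 0 (by decide) (by decide) (by decide))
    have e : ψ 0 * ps 0 1 * (ψ 1)⁻¹ * (ψ 1 * ps 1 8 * (ψ 8)⁻¹) * (ψ 8 * ps 8 0 * (ψ 0)⁻¹) =
        ψ 0 * (ps 0 1 * ps 1 8 * ps 8 0) * (ψ 0)⁻¹ := by group
    rw [e] at this
    exact this
  have l2 : ψ 0 * (ps 0 2 * ps 2 5 * ps 5 0) * (ψ 0)⁻¹ ∈ C := by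
    have := C.mul_mem (C.mul_mem (k 0 2 (by decide) (by decide) (by decide))
      (k 2 5 (by decide) (by decide) (by decide))) (k 5 0 (by decide) (by decide) (by decide))
    have e : ψ 0 * ps 0 2 * (ψ 2)⁻¹ * (ψ 2 * ps 2 5 * (ψ 5)⁻¹) * (ψ 5 * ps 5 0 * (ψ 0)⁻¹) =
        ψ 0 * (ps 0 2 * ps 2 5 * ps 5 0) * (ψ 0)⁻¹ := by group
    rw [e] at this
    exact this
  apply not_comm
  have h1 := hC _ l1 _ l2
  generalize ps 0 1 * ps 1 8 * ps 8 0 = P at *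
  generalize ps 0 2 * ps 2 5 * ps 5 0 = Q at *
  have e1 : ψ 0 * P * (ψ 0)⁻¹ * (ψ 0 * Q * (ψ 0)⁻¹) = ψ 0 * (P * Q) * (ψ 0)⁻¹ := by group
  have e2 : ψ 0 * Q * (ψ 0)⁻¹ * (ψ 0 * P * (ψ 0)⁻¹) = ψ 0 * (Q * P) * (ψ 0)⁻¹ := by group
  rw [e1, e2] at h1
  exact mul_left_cancel (mul_right_cancel h1)

end Pool.Agent.Q13.LC
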